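import Mathlib

/-!
# Nonstandard extensions of the natural numbers

`fullLang` is the first-order language with a symbol for every finitary function on `ℕ` and for
every finitary relation on `ℕ`.  A nonstandard extension of `ℕ` is a structure `M` for this
language that satisfies the transfer principle: the same sentences hold in `ℕ` and in `M`.
-/

namespace Q204.NS

open FirstOrder FirstOrder.Language

/-- The language with a symbol for every finitary function and every finitary relation on `ℕ`. -/
def fullLang : FirstOrder.Language.{0, 0} :=
  ⟨fun n => (Fin n → ℕ) → ℕ, fun n => Set (Fin n → ℕ)⟩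

/-- The standard structure: every symbol denotes itself. -/
instance stdStructure : fullLang.Structure ℕ where
  funMap := fun {n} (f : (Fin n → ℕ) → ℕ) v => f v
  RelMap := fun {n} (R : Set (Fin n → ℕ)) v => v ∈ R

/-- `M` satisfies the transfer principle: `ℕ` and `M` satisfy the same `fullLang`-sentences. -/
def IsExtension (M : Type) [fullLang.Structure M] : Prop :=
  ∀ φ : fullLang.Sentence, ℕ ⊨ φ ↔ M ⊨ φ

/-- The star-image `*A` of a set `A` of natural numbers. -/
def star (M : Type) [fullLang.Structure M] (A : Set ℕ) : Set M :=
  {x | Structure.RelMap (L := fullLang) (n := 1) ({v | v 0 ∈ A} : Set (Fin 1 → ℕ)) ![x]}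

/-- The star-image of a binary relation `R` on the natural numbers. -/
def starRel {M : Type} [fullLang.Structure M] (R : ℕ → ℕ → Prop) (x y : M) : Prop :=
  Structure.RelMap (L := fullLang) (n := 2) ({v | R (v 0) (v 1)} : Set (Fin 2 → ℕ)) ![x, y]

/-- The star-image of a binary operation on the natural numbers. -/
def starOp {M : Type} [fullLang.Structure M] (f : ℕ → ℕ → ℕ) (x y : M) : M :=
  Structure.funMap (L := fullLang) (n := 2) ((fun v => f (v 0) (v 1)) : (Fin 2 → ℕ) → ℕ) ![x, y]

/-- The monad of an ultrafilter `F`: the elements of `M` that lie in `*A` for every `A ∈ F`. -/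
def monad (M : Type) [fullLang.Structure M] (F : Ultrafilter ℕ) : Set M :=
  {x | ∀ A ∈ F, x ∈ star M A}

/-- The type `v(x) = {A ⊆ ℕ : x ∈ *A}` of an element of `M`. -/
def typ {M : Type} [fullLang.Structure M] (x : M) : Set (Set ℕ) := {A | x ∈ star M A}

/-- The set `A↑` of the natural numbers divisible by some element of `A`. -/
def up (A : Set ℕ) : Set ℕ := {n | ∃ a ∈ A, a ∣ n}

/-- The sets of natural numbers that are upward closed for divisibility. -/
def upClosed : Set (Set ℕ) := {A | up A = A}

end Q204.NS
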