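import Pool.Agent.Q204.NS.Transfer

namespace Q204.NS

open FirstOrder FirstOrder.Language Filter

/-- an ultrafilter on the finite sets of sets of natural numbers, finer than `atTop` -/
noncomputable def bigU : Ultrafilter (Finset (Set ℕ)) := Ultrafilter.of atTop

theorem bigU_mem (A : Set ℕ) : {s : Finset (Set ℕ) | A ∈ s} ∈ bigU := by
  have h : (bigU : Filter (Finset (Set ℕ))) ≤ atTop := Ultrafilter.of_le _
  apply h
  filter_upwards [eventually_ge_atTop {A}] with s hs
  exact hs (Finset.mem_singleton_self A)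

/-- the ultrapower of `ℕ` by `bigU` -/
def Big : Type := (bigU : Filter (Finset (Set ℕ))).Product (fun _ => ℕ)

noncomputable instance : fullLang.Structure Big :=
  inferInstanceAs (fullLang.Structure ((bigU : Filter (Finset (Set ℕ))).Product (fun _ => ℕ)))

theorem big_ext : IsExtension Big := by
  intro φ
  have h := Ultraproduct.sentence_realize (L := fullLang) (M := fun _ : Finset (Set ℕ) => ℕ)
    (u := bigU) φ
  refine Iff.trans ?_ h.symm
  simp

/-- the class of a function in the ultrapower -/
noncomputable def cls (g : Finset (Set ℕ) → ℕ) : Big :=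
  (g : (bigU : Filter (Finset (Set ℕ))).Product (fun _ => ℕ))

theorem mem_star_big (A : Set ℕ) (g : Finset (Set ℕ) → ℕ) :
    cls g ∈ star Big A ↔ ∀ᶠ s in (bigU : Filter (Finset (Set ℕ))), g s ∈ A := by
  have h := Ultraproduct.boundedFormula_realize_cast (L := fullLang)
    (M := fun _ : Finset (Set ℕ) => ℕ) (u := bigU) (rl A)
    (fun i : Empty => i.elim) (fun _ : Fin 1 => g)
  have h1 := realize_rl (M := Big) A (cls g)
  rw [← h1]
  have e1 : (Fin.snoc default (cls g) : Fin 1 → Big) = fun _ => cls g := by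
    ext j
    fin_cases j
    rfl
  rw [e1]
  refine Iff.trans (Iff.of_eq ?_) (h.trans (Iff.of_eq ?_))
  · congr 1
    exact Subsingleton.elim _ _
  · congr 1

theorem big_monad (F : Ultrafilter ℕ) : (monad Big F).Nonempty := by
  classical
  have h : ∀ s : Finset (Set ℕ), ∃ n : ℕ, ∀ A ∈ s, A ∈ F → n ∈ A := by
    intro s
    have h1 : (⋂ A ∈ s.filter (· ∈ F), A) ∈ F := by
      refine (Filter.biInter_finset_mem _).2 ?_
      intro A hA
      exact (Finset.mem_filter.1 hA).2
    obtain ⟨n, hn⟩ := Ultrafilter.nonempty_of_mem h1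
    refine ⟨n, fun A hA hAF => ?_⟩
    simp only [Set.mem_iInter] at hn
    exact hn A (Finset.mem_filter.2 ⟨hA, hAF⟩)
  choose g hg using h
  refine ⟨cls g, ?_⟩
  intro A hA
  rw [mem_star_big]
  filter_upwards [bigU_mem A] with s hs
  exact hg s A hs hA

end Q204.NS
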