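import Pool.Agent.Q204.NS.Exists

namespace Q204.NS

open Filter

/-- the tensor square of `F`, transported to `ℕ` by the pairing function -/
def sq (F : Ultrafilter ℕ) : Ultrafilter ℕ :=
  Ultrafilter.bind F (fun m => Ultrafilter.map (fun n => Nat.pair m n) F)

theorem mem_sq (F : Ultrafilter ℕ) (A : Set ℕ) :
    A ∈ sq F ↔ {m | {n | Nat.pair m n ∈ A} ∈ F} ∈ F := Iff.rfl

theorem sq_fst (F : Ultrafilter ℕ) : (sq F).map (fun n => n.unpair.1) = F := by
  ext A
  rw [Ultrafilter.mem_map, mem_sq]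
  simp only [Set.mem_preimage, Nat.unpair_pair]
  have : {m | {n : ℕ | m ∈ A} ∈ F} = A := by
    ext m
    by_cases h : m ∈ A
    · simp [h, Filter.univ_mem (f := (F : Filter ℕ))]
      exact Filter.univ_mem
    · simp [h]
  rw [this]

theorem sq_snd (F : Ultrafilter ℕ) : (sq F).map (fun n => n.unpair.2) = F := by
  ext A
  rw [Ultrafilter.mem_map, mem_sq]
  simp only [Set.mem_preimage, Nat.unpair_pair]
  by_cases h : A ∈ F
  · simp [h]
    exact Filter.univ_mem
  · simp [h]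

theorem big_mem (F : Ultrafilter ℕ) (hF : ∀ n : ℕ, {n} ∉ F) (k : ℕ) : {n | k < n} ∈ F := by
  induction k with
  | zero =>
    have h := Ultrafilter.compl_mem_iff_notMem.2 (hF 0)
    filter_upwards [h] with n hn
    exact Nat.pos_of_ne_zero hn
  | succ k ih =>
    have h := Ultrafilter.compl_mem_iff_notMem.2 (hF (k + 1))
    filter_upwards [h, ih] with n hn hn2
    have h2 : n ≠ k + 1 := hn
    have h3 : k < n := hn2
    show k + 1 < n
    omega

theorem sq_lt (F : Ultrafilter ℕ) (hF : ∀ n : ℕ, {n} ∉ F) :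
    {n : ℕ | n.unpair.1 < n.unpair.2} ∈ sq F := by
  rw [mem_sq]
  refine Filter.univ_mem' fun m => ?_
  show {n | Nat.pair m n ∈ {n : ℕ | n.unpair.1 < n.unpair.2}} ∈ F
  have h : {n | Nat.pair m n ∈ {n : ℕ | n.unpair.1 < n.unpair.2}} = {n | m < n} := by
    ext n; simp
  rw [h]
  exact big_mem F hF m

theorem sq_fst_mem (F : Ultrafilter ℕ) {A : Set ℕ} (hA : A ∈ F) :
    {n : ℕ | n.unpair.1 ∈ A} ∈ sq F := by
  have h := sq_fst F
  rw [← h, Ultrafilter.mem_map] at hA
  exact hA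

theorem sq_snd_mem (F : Ultrafilter ℕ) {A : Set ℕ} (hA : A ∈ F) :
    {n : ℕ | n.unpair.2 ∈ A} ∈ sq F := by
  have h := sq_snd F
  rw [← h, Ultrafilter.mem_map] at hA
  exact hA

end Q204.NS
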