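import Pool.Agent.Q204.NS.Defs

namespace Q204.NS

open FirstOrder FirstOrder.Language

variable {M : Type} [fullLang.Structure M]

/-- the star-image of a unary function -/
def starFn (f : ℕ → ℕ) (x : M) : M :=
  Structure.funMap (L := fullLang) (n := 1) ((fun v => f (v 0)) : (Fin 1 → ℕ) → ℕ) ![x]

/-- the symbol of a unary function applied to the variable -/
def tm (f : ℕ → ℕ) : fullLang.Term (Empty ⊕ Fin 1) :=
  Term.func (show fullLang.Functions 1 from (fun v => f (v 0)))
        (fun _ => (&0 : fullLang.Term (Empty ⊕ Fin 1)))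

/-- the symbol of a unary relation applied to the variable -/
def rl (A : Set ℕ) : fullLang.BoundedFormula Empty 1 :=
  (show fullLang.Relations 1 from ({v | v 0 ∈ A} : Set (Fin 1 → ℕ))).boundedFormula
        (fun _ => (&0 : fullLang.Term (Empty ⊕ Fin 1)))

theorem realize_tm (f : ℕ → ℕ) (w : M) :
    (tm f).realize (Sum.elim (default : Empty → M) (Fin.snoc default w)) = starFn f w := by
  unfold tm starFn
  simp only [Term.realize]
  congr 1
  ext j
  fin_cases j
  rfl

theorem realize_rl (A : Set ℕ) (w : M) :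
    (rl A).Realize (default : Empty → M) (Fin.snoc default w) ↔ w ∈ star M A := by
  unfold rl star
  rw [BoundedFormula.realize_rel]
  simp only [Set.mem_ofPred_eq]
  constructor <;>
  · intro h
    convert h using 1
    ext j
    fin_cases j
    rfl

theorem realize_tm_nat (f : ℕ → ℕ) (w : ℕ) :
    (tm f).realize (Sum.elim (default : Empty → ℕ) (Fin.snoc default w)) = f w := rfl

theorem realize_rl_nat (A : Set ℕ) (w : ℕ) :
    (rl A).Realize (default : Empty → ℕ) (Fin.snoc default w) ↔ w ∈ A := by
  unfold rl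
  rw [BoundedFormula.realize_rel]
  rfl

theorem relMap_star (hM : IsExtension M) {k : ℕ} (R : Set (Fin k → ℕ)) (f : Fin k → ℕ → ℕ)
    (w : M) :
    Structure.RelMap (L := fullLang) (n := k) R (fun i => starFn (f i) w) ↔
      w ∈ star M {n | (fun i => f i n) ∈ R} := by
  let φ : fullLang.Sentence := BoundedFormula.all
    (((show fullLang.Relations k from R).boundedFormula (fun i => tm (f i))).iff
      (rl {n | (fun i => f i n) ∈ R}))
  have h1 : ℕ ⊨ φ := by
    intro n
    rw [BoundedFormula.realize_iff, BoundedFormula.realize_rel]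
    exact Iff.rfl
  have h2 := (hM φ).1 h1 w
  rw [BoundedFormula.realize_iff, BoundedFormula.realize_rel, realize_rl] at h2
  simp only [realize_tm] at h2
  exact h2

theorem mem_star_fn (hM : IsExtension M) (A : Set ℕ) (f : ℕ → ℕ) (w : M) :
    starFn f w ∈ star M A ↔ w ∈ star M (f ⁻¹' A) := by
  have h := relMap_star hM ({v | v 0 ∈ A} : Set (Fin 1 → ℕ)) (fun _ => f) w
  have h2 : (fun _ : Fin 1 => starFn f w) = ![starFn f w] := by
    ext j; fin_cases j; rfl
  rw [h2] at h
  exact h

theorem starRel_fn (hM : IsExtension M) (R : ℕ → ℕ → Prop) (f g : ℕ → ℕ) (w : M) :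
    starRel R (starFn f w) (starFn g w) ↔ w ∈ star M {n | R (f n) (g n)} := by
  have h := relMap_star hM ({v | R (v 0) (v 1)} : Set (Fin 2 → ℕ)) ![f, g] w
  have h2 : (fun i : Fin 2 => starFn (![f, g] i) w) = ![starFn f w, starFn g w] := by
    ext j; fin_cases j <;> rfl
  rw [h2] at h
  exact h

theorem starOp_fn (hM : IsExtension M) (op : ℕ → ℕ → ℕ) (f g : ℕ → ℕ) (w : M) :
    starOp op (starFn f w) (starFn g w) = starFn (fun n => op (f n) (g n)) w := by
  let φ : fullLang.Sentence := BoundedFormula.all
    (Term.bdEqual (Term.func (show fullLang.Functions 2 from (fun v => op (v 0) (v 1)))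
        ![tm f, tm g]) (tm (fun n => op (f n) (g n))))
  have h1 : ℕ ⊨ φ := by
    intro n
    rw [BoundedFormula.realize_bdEqual]
    rfl
  have h2 := (hM φ).1 h1 w
  rw [BoundedFormula.realize_bdEqual, realize_tm] at h2
  simp only [Term.realize] at h2
  rw [← h2]
  unfold starOp
  congr 1
  ext j
  fin_cases j
  · exact (realize_tm f w).symm
  · exact (realize_tm g w).symm

theorem starFn_eq (hM : IsExtension M) (f g : ℕ → ℕ) (w : M) :
    starFn f w = starFn g w ↔ w ∈ star M {n | f n = g n} := by
  let φ : fullLang.Sentence := BoundedFormula.all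
    ((Term.bdEqual (tm f) (tm g)).iff (rl {n | f n = g n}))
  have h1 : ℕ ⊨ φ := by
    intro n
    rw [BoundedFormula.realize_iff, BoundedFormula.realize_bdEqual]
    exact Iff.rfl
  have h2 := (hM φ).1 h1 w
  rwa [BoundedFormula.realize_iff, BoundedFormula.realize_bdEqual, realize_tm, realize_tm,
    realize_rl] at h2

theorem starFn_id (hM : IsExtension M) (w : M) : starFn (fun n => n) w = w := by
  let φ : fullLang.Sentence := BoundedFormula.all
    (Term.bdEqual (tm (fun n => n)) (&0))
  have h1 : ℕ ⊨ φ := by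
    intro n
    rw [BoundedFormula.realize_bdEqual]
    rfl
  have h2 := (hM φ).1 h1 w
  rw [BoundedFormula.realize_bdEqual, realize_tm] at h2
  exact h2

theorem star_inter (hM : IsExtension M) (A B : Set ℕ) :
    star M (A ∩ B) = star M A ∩ star M B := by
  let φ : fullLang.Sentence := BoundedFormula.all
    (((rl A) ⊓ (rl B)).iff (rl (A ∩ B)))
  have h1 : ℕ ⊨ φ := by
    intro n
    rw [BoundedFormula.realize_iff, BoundedFormula.realize_inf]
    exact Iff.rfl
  ext w
  have h2 := (hM φ).1 h1 w
  rw [BoundedFormula.realize_iff, BoundedFormula.realize_inf, realize_rl, realize_rl,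
      realize_rl] at h2
  exact h2.symm

theorem star_compl (hM : IsExtension M) (A : Set ℕ) :
    star M Aᶜ = (star M A)ᶜ := by
  let φ : fullLang.Sentence := BoundedFormula.all
    ((rl A).not.iff (rl Aᶜ))
  have h1 : ℕ ⊨ φ := by
    intro n
    rw [BoundedFormula.realize_iff, BoundedFormula.realize_not]
    exact Iff.rfl
  ext w
  have h2 := (hM φ).1 h1 w
  rw [BoundedFormula.realize_iff, BoundedFormula.realize_not, realize_rl, realize_rl] at h2
  exact h2.symm

theorem star_mono (hM : IsExtension M) {A B : Set ℕ} (h : A ⊆ B) : star M A ⊆ star M B := by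
  have h2 := star_inter hM A B
  rw [Set.inter_eq_left.mpr h] at h2
  rw [h2]
  exact Set.inter_subset_right

theorem mem_star_iff (hM : IsExtension M) {F : Ultrafilter ℕ} {w : M} (hw : w ∈ monad M F)
    (A : Set ℕ) : w ∈ star M A ↔ A ∈ F := by
  constructor
  · intro h
    by_contra hA
    have h1 := hw _ (Ultrafilter.compl_mem_iff_notMem.2 hA)
    rw [star_compl hM] at h1
    exact h1 h
  · exact hw A

theorem fn_mem_monad (hM : IsExtension M) {F : Ultrafilter ℕ} {w : M} (hw : w ∈ monad M F)
    (f : ℕ → ℕ) : starFn f w ∈ monad M (F.map f) := by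
  intro A hA
  rw [mem_star_fn hM]
  exact hw _ hA

theorem typ_eq (hM : IsExtension M) {F : Ultrafilter ℕ} {w : M} (hw : w ∈ monad M F) :
    typ w = {A | A ∈ F} := by
  ext A
  exact mem_star_iff hM hw A

end Q204.NS
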